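import Mathlib
import Pool.Agent.Y582.SD.Neg

set_option autoImplicit false

/-!
# If `𝔡` is singular, the polarized relation with `ω` fails in the strongest way at every cardinal
of the cofinality of `𝔡`
-/

namespace Pool.Agent.Results.MP_10964f_lc.AllOfTheCofinality

open Cardinal Pool.Agent.Helper669.Dom Pool.Agent.Helper669.Dom2

/-- Let the dominating number `𝔡` be singular and let `μ` be any cardinal with `cf(μ) = cf(𝔡)`
(for instance `μ = 𝔡`, the regular cardinal `μ = cf(𝔡)`, or arbitrarily large `μ`). Then the strong
polarized relation fails for `μ` and `ω`. Moreover there is a colouring `c : μ × ω → ω` with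
infinitely many colours such that for every infinite set `B ⊆ ω` all rows, except fewer than `μ`
many, take every one of the colours infinitely often on `B`; so every product `A × B` with
`|A| = μ` and `B` infinite gets all colours. -/
theorem result (h : dNum.ord.cof < dNum) (μ : Cardinal.{0}) (hμ : μ.ord.cof = dNum.ord.cof) :
    ¬ StrongPolarized μ ℵ₀ ∧
      ∃ c : μ.out → ℕ → ℕ, ∀ B : Set ℕ, B.Infinite →
        #{a | ∃ k, {b | b ∈ B ∧ c a b = k}.Finite} < μ := by
  have hr : Splits dNum := splits_of_no_base fun _ _ hU hb => not_lt.1 fun hlt =>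
    absurd (cof_dNum hU hb hlt) (not_le.2 h)
  obtain ⟨c, hc⟩ := Pool.Agent.Y582.SD.main hr hμ
  exact ⟨Pool.Agent.Y582.SD.not_polarized hc, c, hc⟩

end Pool.Agent.Results.MP_10964f_lc.AllOfTheCofinality
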