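import Mathlib
import Pool.Agent.Helper669.Dom2
import Pool.Agent.Y767.DN.Rows
import Pool.Agent.Y582.SD.Neg

/-!
# The strong polarized relation fails at every cardinal with the cofinality of a singular `𝔡`
-/

namespace Pool.Agent.Results.MP_10964f_lc.EveryCofinality

open Cardinal Pool.Agent.Helper669.Dom Pool.Agent.Helper669.Dom2

/-- Let the dominating number `𝔡` be singular (its cofinality is smaller than `𝔡`), or let every
base of every nonprincipal ultrafilter on `ℕ` have at least `𝔡` members. Then for every cardinal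
`lam` with the same cofinality as `𝔡` (for example `lam = 𝔡` and `lam = cf 𝔡`) the strong polarized
relation fails for `lam` and `ω`; moreover there is a colouring `c` of `lam × ω` with infinitely
many colours such that for every infinite set `B` of columns all rows beyond some row take every
colour infinitely often on `B`. -/
theorem result (h : dNum.ord.cof < dNum ∨
      ∀ (U : Ultrafilter ℕ) (ℬ : Set (Set ℕ)), (∀ n, {n} ∉ U) → IsBase U ℬ → dNum ≤ #ℬ)
    (lam : Cardinal.{0}) (hlam : lam.ord.cof = dNum.ord.cof) :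
    ¬ StrongPolarized lam ℵ₀ ∧
    ∃ c : lam.ord.ToType → ℕ → ℕ, ∀ B : Set ℕ, B.Infinite →
      ∃ y0, ∀ y, y0 < y → ∀ k, {b | b ∈ B ∧ c y b = k}.Infinite := by
  classical
  have hr : Splits dNum := by
    rcases h with h | h
    · exact splits_of_no_base fun _ _ hU hb => not_lt.1 fun hlt =>
        absurd (cof_dNum hU hb hlt) (not_le.2 h)
    · exact splits_of_no_base h
  obtain ⟨c0, hc0⟩ := Pool.Agent.Y582.SD.base hr
  obtain ⟨m, hm⟩ := Pool.Agent.Y767.DN.transfer dNum.ord.ToType lam.ord.ToType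
    (by rw [Ordinal.cof_toType, Ordinal.cof_toType, hlam])
  have hc : ∀ B : Set ℕ, B.Infinite → ∃ y0 : lam.ord.ToType, ∀ y, y0 < y → ∀ k,
      {b | b ∈ B ∧ c0 (m y) b = k}.Infinite := by
    intro B hB
    obtain ⟨x0, hx0⟩ := hc0 B hB
    obtain ⟨y0, hy0⟩ := hm x0
    exact ⟨y0, fun y hy k => hx0 _ (hy0 y hy) k⟩
  refine ⟨Pool.Agent.Y767.DN.not_polarized (Pool.Agent.Y767.DN.aleph0_le_of_cof hlam)
    ⟨fun y b => if c0 (m y) b = 0 then 0 else 1, fun B hB => ?_⟩, fun y b => c0 (m y) b, hc⟩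
  obtain ⟨y0, hy0⟩ := hc B hB
  refine ⟨y0, fun y hy => ?_⟩
  obtain ⟨p, hp, hp0⟩ := (hy0 y hy 0).nonempty
  obtain ⟨q, hq, hq1⟩ := (hy0 y hy 1).nonempty
  refine ⟨p, hp, q, hq, ?_⟩
  show (if c0 (m y) p = 0 then (0 : Fin 2) else 1) ≠ if c0 (m y) q = 0 then (0 : Fin 2) else 1
  rw [if_pos hp0, if_neg (by rw [hq1]; norm_num)]
  decide

end Pool.Agent.Results.MP_10964f_lc.EveryCofinality
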